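import Pool.Agent.H.MP_d25c28_al.C

set_option autoImplicit false

namespace Pool.Agent.Results.MP_62a449_al.Infinite

/-- the numerical semigroup generated by `A`, as a set of integers -/
def sg (A : Finset ℕ) : Set ℤ := (↑) '' (AddSubmonoid.closure (A : Set ℕ) : Set ℕ)

/-- pseudo-Frobenius numbers -/
def PF (S : Set ℤ) : Set ℤ := {x | x ∉ S ∧ ∀ m ∈ S \ {0}, x + m ∈ S}

/-- `A` minimally generates an almost symmetric numerical semigroup -/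
def AlmostSym (A : Finset ℕ) : Prop :=
  (∀ a ∈ A, a ∉ AddSubmonoid.closure ((A : Set ℕ) \ {a})) ∧
  ((AddSubmonoid.closure (A : Set ℕ) : Set ℕ)ᶜ).Finite ∧
  ∃ F : ℤ, IsGreatest (sg A)ᶜ F ∧
    ∀ x, x ∉ sg A → F - x ∈ sg A ∨ (x ∈ PF (sg A) ∧ F - x ∈ PF (sg A))

theorem result (e : ℕ) (he : 8 ≤ e) (B : ℕ) :
    ∃ A : Finset ℕ, A.card = e ∧ AlmostSym A ∧ (PF (sg A)).Finite ∧ B < (PF (sg A)).ncard := by
  obtain ⟨A, F, G, h1, h2, h3, hG, h4, h5, h6, h7, h8, h9, h10, h11⟩ :=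
    Pool.Agent.Cube.mainZ e B he
  have e1 : sg A = G := hG.symm
  have e2 : PF G = {x | x ∉ G ∧ ∀ t ∈ G, t ≠ 0 → x + t ∈ G} := by
    ext x; simp [PF]
  have hA : AlmostSym A := by
    refine ⟨h2, h3, F, e1 ▸ h4, ?_⟩
    rw [e1, e2]
    intro x hx
    by_cases h : F - x ∈ G
    · exact Or.inl h
    · exact Or.inr ⟨⟨hx, h9 x hx h⟩, h, h9 _ h (by simpa using hx)⟩
  refine ⟨A, h1, hA, ?_⟩
  rw [e1, e2]
  exact ⟨h10, h11⟩

end Pool.Agent.Results.MP_62a449_al.Infinite
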